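import Pool.Agent.Helper61.SS.Goals

/-!
Packet SS-REP (project SS, MP_552bae_an): absolutely convergent representations.
-/

set_option autoImplicit false

namespace Pool.Agent.Helper14.SS

open Pool.Agent.Helper61.SS TensorProduct Filter Topology

universe u v w

section

variable {A : Type u} {B : Type v} {C : Type w}
  [NonUnitalNormedRing A] [NormedSpace ℂ A] [NonUnitalNormedRing B] [NormedSpace ℂ B]
  [NonUnitalNormedRing C] [NormedSpace ℂ C]

theorem pn_set_nonempty (t : A ⊗[ℂ] B) :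
    {r : ℝ | ∃ (n : ℕ) (a : Fin n → A) (b : Fin n → B),
      t = ∑ i, a i ⊗ₜ[ℂ] b i ∧ r = ∑ i, ‖a i‖ * ‖b i‖}.Nonempty := by
  obtain ⟨S, hS⟩ := TensorProduct.exists_finset t
  refine ⟨_, S.card, fun i => (S.equivFin.symm i).1.1, fun i => (S.equivFin.symm i).1.2, ?_, rfl⟩
  rw [hS, ← Finset.sum_coe_sort]
  exact (Fintype.sum_equiv S.equivFin.symm _ _ (fun _ => rfl)).symm

theorem pn_rep (t : A ⊗[ℂ] B) {r : ℝ} (h : pn t < r) :
    ∃ (n : ℕ) (a : Fin n → A) (b : Fin n → B),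
      t = ∑ i, a i ⊗ₜ[ℂ] b i ∧ ∑ i, ‖a i‖ * ‖b i‖ < r := by
  obtain ⟨x, ⟨n, a, b, h1, h2⟩, hx⟩ := exists_lt_of_csInf_lt (pn_set_nonempty t) h
  exact ⟨n, a, b, h1, h2 ▸ hx⟩

theorem pn_tmul_le (a : A) (b : B) : pn (a ⊗ₜ[ℂ] b) ≤ ‖a‖ * ‖b‖ := by
  apply csInf_le
  · refine ⟨0, ?_⟩
    rintro _ ⟨n, a, b, _, rfl⟩
    positivity
  · exact ⟨1, fun _ => a, fun _ => b, by simp, by simp⟩

theorem j_le {j : A →ₗ[ℂ] B →ₗ[ℂ] C} (h : IsProj A B C j) (a : A) (b : B) :
    ‖j a b‖ ≤ ‖a‖ * ‖b‖ := by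
  have := h.norm (a ⊗ₜ[ℂ] b)
  rw [TensorProduct.lift.tmul] at this
  rw [this]
  exact pn_tmul_le a b

theorem rescale (j : A →ₗ[ℂ] B →ₗ[ℂ] C) (s : ℝ) (hs : 0 < s) (a : A) (b : B) :
    ∃ (a' : A) (b' : B), j a' b' = j a b ∧ ‖a'‖ ≤ s ∧ ‖b'‖ ≤ s⁻¹ * (‖a‖ * ‖b‖) := by
  by_cases ha : a = 0
  · exact ⟨0, 0, by simp [ha], by simpa using hs.le, by simp [ha]⟩
  · have hn : 0 < ‖a‖ := norm_pos_iff.mpr ha
    refine ⟨((s / ‖a‖ : ℝ) : ℂ) • a, ((s⁻¹ * ‖a‖ : ℝ) : ℂ) • b, ?_, ?_, ?_⟩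
    · rw [map_smul, map_smul, LinearMap.smul_apply, smul_smul, ← Complex.ofReal_mul]
      have : s⁻¹ * ‖a‖ * (s / ‖a‖) = 1 := by field_simp
      rw [this]
      simp
    · rw [norm_smul, Complex.norm_real, Real.norm_of_nonneg (by positivity)]
      exact (div_mul_cancel₀ _ hn.ne').le
    · rw [norm_smul, Complex.norm_real, Real.norm_of_nonneg (by positivity), mul_assoc]

end

/-- Packet REP. -/
theorem gREP : G_REP.{u, v, w} := by
  intro A B C _ _ _ _ _ _ _ j hj c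
  have hc : c ∈ closure (((LinearMap.range (TensorProduct.lift j)).toAddSubgroup : AddSubgroup C) :
      Set C) := by
    have := hj.dense c
    rw [Submodule.coe_toAddSubgroup, LinearMap.coe_range]
    exact this
  obtain ⟨v, hv1, hv2, hv3, hv4⟩ := controlled_sum_of_mem_closure hc
    (b := fun n => (1 / 4 : ℝ) ^ n) (fun n => by positivity)
  have hM : 0 < ‖c‖ + 2 := by positivity
  have hvn : ∀ n, ‖v n‖ < (‖c‖ + 2) * (1 / 4 : ℝ) ^ n := by
    intro n
    rcases Nat.eq_zero_or_pos n with rfl | hn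
    · have h1 : ‖v 0‖ ≤ ‖v 0 - c‖ + ‖c‖ := by
        simpa using norm_add_le (v 0 - c) c
      have h9 : ‖v 0 - c‖ = ‖-v 0 + c‖ := by
        rw [← norm_neg, neg_sub, sub_eq_neg_add]
      rw [h9] at h1
      simp only [pow_zero, mul_one] at hv3 ⊢
      linarith
    · have h1 := hv4 n hn
      have h2 : 0 < (1 / 4 : ℝ) ^ n := by positivity
      nlinarith [norm_nonneg c]
  have hv2' : ∀ n, ∃ t : A ⊗[ℂ] B, TensorProduct.lift j t = v n := by
    intro n
    have := hv2 n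
    simpa using this
  choose t ht using hv2'
  have hpt : ∀ n, pn (t n) < (‖c‖ + 2) * (1 / 4 : ℝ) ^ n := by
    intro n
    rw [← hj.norm, ht]
    exact hvn n
  choose N a b h1 h2 using fun n => pn_rep (t n) (hpt n)
  choose a' b' h3 h4 h5 using fun (n : ℕ) (i : Fin (N n)) =>
    rescale j ((1 / 2 : ℝ) ^ n) (by positivity) (a n i) (b n i)
  -- block sums
  have hblock : ∀ n, ∑ i, j (a' n i) (b' n i) = v n := by
    intro n
    rw [← ht n, h1 n, map_sum]
    apply Finset.sum_congr rfl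
    intro i _
    rw [h3, TensorProduct.lift.tmul]
  have hbsum : ∀ n, ∑ i, ‖b' n i‖ ≤ (‖c‖ + 2) * (1 / 2 : ℝ) ^ n := by
    intro n
    calc ∑ i, ‖b' n i‖ ≤ ∑ i, ((1 / 2 : ℝ) ^ n)⁻¹ * (‖a n i‖ * ‖b n i‖) :=
          Finset.sum_le_sum fun i _ => h5 n i
      _ = ((1 / 2 : ℝ) ^ n)⁻¹ * ∑ i, (‖a n i‖ * ‖b n i‖) := by rw [Finset.mul_sum]
      _ ≤ ((1 / 2 : ℝ) ^ n)⁻¹ * ((‖c‖ + 2) * (1 / 4 : ℝ) ^ n) := by
          gcongr
          exact (h2 n).le
      _ = (‖c‖ + 2) * (1 / 2 : ℝ) ^ n := by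
          have : (1 / 4 : ℝ) ^ n = (1 / 2 : ℝ) ^ n * (1 / 2 : ℝ) ^ n := by
            rw [← mul_pow]; norm_num
          rw [this]
          have h0 : (1 / 2 : ℝ) ^ n ≠ 0 := by positivity
          field_simp
  have hgeo : Summable fun n : ℕ => (‖c‖ + 2) * (1 / 2 : ℝ) ^ n :=
    (summable_geometric_of_lt_one (by norm_num) (by norm_num)).mul_left _
  -- the index type
  let ι := Σ n, Fin (N n)
  let a2 : ι → A := fun i => a' i.1 i.2
  let b2 : ι → B := fun i => b' i.1 i.2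
  have hb2 : Summable fun i : ι => ‖b2 i‖ := by
    rw [summable_sigma_of_nonneg (fun _ => norm_nonneg _)]
    refine ⟨fun n => (hasSum_fintype _).summable, ?_⟩
    refine Summable.of_nonneg_of_le (fun n => tsum_nonneg fun _ => norm_nonneg _) (fun n => ?_) hgeo
    rw [tsum_fintype]
    exact hbsum n
  have ha2le : ∀ i : ι, ‖a2 i‖ ≤ (1 / 2 : ℝ) ^ i.1 := fun i => h4 i.1 i.2
  have hf : Summable fun i : ι => j (a2 i) (b2 i) := by
    apply Summable.of_norm_bounded hb2
    intro i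
    calc ‖j (a2 i) (b2 i)‖ ≤ ‖a2 i‖ * ‖b2 i‖ := j_le hj _ _
      _ ≤ 1 * ‖b2 i‖ := by
          gcongr
          exact (ha2le i).trans (pow_le_one₀ (by norm_num) (by norm_num))
      _ = ‖b2 i‖ := one_mul _
  have hvs : HasSum v c := by
    have hs : Summable v := by
      apply Summable.of_norm_bounded (g := fun n => (‖c‖ + 2) * (1 / 4 : ℝ) ^ n)
      · exact (summable_geometric_of_lt_one (by norm_num) (by norm_num)).mul_left _
      · exact fun n => (hvn n).le
    have h6 := hs.hasSum.tendsto_sum_nat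
    have h7 := h6.comp (tendsto_add_atTop_nat 1)
    have h8 := tendsto_nhds_unique h7 hv1
    rw [← h8]
    exact hs.hasSum
  have hsum : HasSum (fun i : ι => j (a2 i) (b2 i)) c := by
    refine HasSum.sigma_of_hasSum hvs (fun n => ?_) hf
    rw [← hblock n]
    exact hasSum_fintype _
  have ha2 : Tendsto a2 cofinite (𝓝 0) := by
    have hfst : Tendsto (fun i : ι => i.1) cofinite atTop := by
      rw [← Nat.cofinite_eq_atTop]
      refine Tendsto.cofinite_of_finite_preimage_singleton fun n => ?_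
      refine Set.Finite.subset (Set.finite_range fun i : Fin (N n) => (⟨n, i⟩ : ι)) ?_
      rintro ⟨m, i⟩ hi
      simp only [Set.mem_preimage, Set.mem_singleton_iff] at hi
      subst hi
      exact ⟨i, rfl⟩
    have hz : Tendsto (fun i : ι => (1 / 2 : ℝ) ^ i.1) cofinite (𝓝 0) :=
      (tendsto_pow_atTop_nhds_zero_of_lt_one (by norm_num) (by norm_num)).comp hfst
    exact squeeze_zero_norm ha2le hz
  -- transport to the natural numbers
  let e : ι → ℕ := Encodable.encode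
  have he : Function.Injective e := Encodable.encode_injective
  let a3 : ℕ → A := Function.extend e a2 0
  let b3 : ℕ → B := Function.extend e b2 0
  have ha3 : ∀ i, a3 (e i) = a2 i := fun i => he.extend_apply _ _ _
  have hb3 : ∀ i, b3 (e i) = b2 i := fun i => he.extend_apply _ _ _
  have ha3' : ∀ n, n ∉ Set.range e → a3 n = 0 := by
    intro n hn
    exact Function.extend_apply' _ _ _ (fun ⟨i, hi⟩ => hn ⟨i, hi⟩)
  have hb3' : ∀ n, n ∉ Set.range e → b3 n = 0 := by
    intro n hn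
    exact Function.extend_apply' _ _ _ (fun ⟨i, hi⟩ => hn ⟨i, hi⟩)
  refine ⟨a3, b3, ?_, ?_, ?_⟩
  · rw [← Nat.cofinite_eq_atTop]
    intro s hs
    have h6 := ha2 hs
    rw [mem_map, mem_cofinite] at h6 ⊢
    refine Set.Finite.subset (h6.image e) ?_
    intro n hn
    by_cases hr : n ∈ Set.range e
    · obtain ⟨i, rfl⟩ := hr
      refine ⟨i, ?_, rfl⟩
      simp only [Set.mem_compl_iff, Set.mem_preimage] at hn ⊢
      rwa [ha3] at hn
    · exfalso
      apply hn
      simp only [Set.mem_preimage]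
      rw [ha3' n hr]
      exact mem_of_mem_nhds hs
  · rw [← he.summable_iff]
    · refine hb2.congr fun i => ?_
      simp only [Function.comp]
      rw [hb3]
    · intro n hn
      rw [hb3' n hn, norm_zero]
  · rw [← he.hasSum_iff]
    · convert hsum using 1
      funext i
      simp only [Function.comp]
      rw [ha3, hb3]
    · intro n hn
      rw [hb3' n hn, map_zero]

end Pool.Agent.Helper14.SS
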